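import Pool.Agent.Q75.SnD

set_option autoImplicit false

open Filter Topology Polynomial

namespace Pool.Agent.Results.MP_8e1908_an.LimsupBelowOne

/-- `d(a, P)`: the distance from `a` to the nearest critical point of `P` -/
noncomputable def critDist (a : ℂ) (P : ℂ[X]) : ℝ :=
  sInf {r : ℝ | ∃ ζ : ℂ, (derivative P).eval ζ = 0 ∧ r = ‖ζ - a‖}

/-- the set of the values `d(a, P)`, `P` of degree `n`, `P(a) = 0`, all zeros of `P` in the closed
unit disc -/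
def values (n : ℕ) (a : ℝ) : Set ℝ :=
  {d : ℝ | ∃ P : ℂ[X], P.natDegree = n ∧ P.eval (a : ℂ) = 0 ∧
    (∀ z : ℂ, P.eval z = 0 → ‖z‖ ≤ 1) ∧ d = critDist (a : ℂ) P}

/-- `δ_n(a)` -/
noncomputable def delta (n : ℕ) (a : ℝ) : ℝ := sSup (values n a)

lemma critDist_nonneg (a : ℂ) (P : ℂ[X]) : 0 ≤ critDist a P := by
  unfold critDist
  apply Real.sInf_nonneg
  rintro r ⟨ζ, -, rfl⟩
  exact norm_nonneg _

lemma critDist_le {a : ℂ} {P : ℂ[X]} {ζ : ℂ} (h : (derivative P).eval ζ = 0) :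
    critDist a P ≤ ‖ζ - a‖ := by
  unfold critDist
  apply csInf_le
  · refine ⟨0, ?_⟩
    rintro r ⟨ζ, -, rfl⟩
    exact norm_nonneg _
  · exact ⟨ζ, h, rfl⟩

lemma delta_nonneg (n : ℕ) (a : ℝ) : 0 ≤ delta n a := by
  unfold delta
  apply Real.sSup_nonneg
  rintro d ⟨P, -, -, -, rfl⟩
  exact critDist_nonneg _ _

lemma values_nonempty {n : ℕ} (hn : 0 < n) {a : ℝ} (ha : 0 < a) (ha1 : a < 1) :
    (values n a).Nonempty := by
  refine ⟨critDist (a : ℂ) ((X - C (a : ℂ)) ^ n), (X - C (a : ℂ)) ^ n, ?_, ?_, ?_, rfl⟩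
  · rw [natDegree_pow, natDegree_X_sub_C, mul_one]
  · rw [eval_pow, eval_sub, eval_X, eval_C, sub_self, zero_pow hn.ne']
  · intro z hz
    rw [eval_pow, eval_sub, eval_X, eval_C] at hz
    have h1 := sub_eq_zero.mp (pow_eq_zero_iff hn.ne' |>.mp hz)
    rw [h1, Complex.norm_real, Real.norm_of_nonneg ha.le]
    exact ha1.le

/-- For EVERY `a ∈ (0,1)` the extremal critical point distance `δ_n(a)` stays below `1 - ε` for all
large `n`; so it does not tend to `1`. -/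
theorem result (a : ℝ) (ha : a ∈ Set.Ioo (0 : ℝ) 1) :
    (∃ ε : ℝ, 0 < ε ∧ ∃ n₀ : ℕ, ∀ n, n₀ ≤ n →
      (∀ P : ℂ[X], P.natDegree = n → P.eval (a : ℂ) = 0 → (∀ z : ℂ, P.eval z = 0 → ‖z‖ ≤ 1) →
        ∃ ζ : ℂ, (derivative P).eval ζ = 0 ∧ ‖ζ - (a : ℂ)‖ ≤ 1 - ε) ∧
      (values n a).Nonempty ∧ BddAbove (values n a) ∧ delta n a ≤ 1 - ε) ∧
    limsup (fun n => delta n a) atTop < 1 ∧
    ¬ Tendsto (fun n => delta n a) atTop (𝓝 1) := by
  obtain ⟨ha0, ha1⟩ := ha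
  obtain ⟨ε, hε, hε1, n₀, hn₀⟩ := Pool.Agent.Q75.Sn.main_poly ha0 ha1
  have hub : ∀ n, n₀ ≤ n → ∀ d ∈ values n a, d ≤ 1 - ε := by
    rintro n hn d ⟨P, h1, h2, h3, rfl⟩
    obtain ⟨ζ, h4, h5⟩ := hn₀ n hn P h1 h2 h3
    exact (critDist_le h4).trans h5
  have hdelta : ∀ n, n₀ ≤ n → delta n a ≤ 1 - ε := by
    intro n hn
    unfold delta
    exact Real.sSup_le (hub n hn) (by linarith)
  refine ⟨⟨ε, hε, n₀ + 1, fun n hn => ⟨hn₀ n (by omega), values_nonempty (by omega) ha0 ha1,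
    ⟨1 - ε, fun d hd => hub n (by omega) d hd⟩, hdelta n (by omega)⟩⟩, ?_, ?_⟩
  · have h1 : limsup (fun n => delta n a) atTop ≤ 1 - ε := by
      apply limsup_le_of_le
      · apply IsBoundedUnder.isCoboundedUnder_le
        exact isBoundedUnder_of ⟨0, fun n => delta_nonneg n a⟩
      · exact eventually_atTop.mpr ⟨n₀, hdelta⟩
    linarith
  · intro hc
    have h1 : (1 : ℝ) ≤ 1 - ε := le_of_tendsto hc (eventually_atTop.mpr ⟨n₀, hdelta⟩)
    linarith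

end Pool.Agent.Results.MP_8e1908_an.LimsupBelowOne
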